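import Pool.Agent.E8helper38.KV.Main

/-!
# Section rings which are quotients with small fixed loci: sections of the generating sheaf

Let `S = ⨁ H⁰(X, L^m)` be a Gorenstein section ring with negative `a`-invariant `-r` (for instance
with rational singularities), `n = dim X`. By the theorem of Hyry and Smith, `core I_N` is equal to
`graded core I_N` for all large `N` if and only if `S₁ ≠ 0`. We prove this for ALL `n` and for all
`S` which are rings of invariants `S = R^G ≠ R` of a finite group `G` of graded automorphisms of a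
Gorenstein ring `R` with the same `a`-invariant (`X` is the quotient of `Y = Proj R` by `G`; if `S` has
rational singularities and `Y → X` is étale in codimension one, then `R` is Gorenstein with the same
`a`-invariant) if each `g ≠ 1` of `G` fixes only a locus of dimension at most `r` of `Y`, or of
dimension at most `r + 1` if `n + r` is even. There is no other condition on `R` and on the action; for
instance, the nontrivial elements may fix finitely many points and curves, for every `r`. In addition
we obtain the number of the sections: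

`|G| dim S₁ = dim R₁ + (|G| - 1) (r + 1 + (-1)^(n + r))`.

The proof. The trace of `g ≠ 1` on `R_m` is, for large `m`, a polynomial in `m`, of degree at most `f`,
the dimension of the fixed locus (`pole`; the trace series has no poles outside of `1` because `L` is
invertible, and the pole at `1` is bounded by an equivariant form of the theorem of Hilbert and Serre
for lists of semi-invariants). So `|G| dim S_m - dim R_m` is a polynomial `Q(m)` of degree at most `f`
for large `m`. As `R` and `S` are Gorenstein, their Hilbert functions satisfy functional equations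
(`gor_rec`), and it follows that `|G| dim S_m - dim R_m = Q(m)` for all `m ≥ 0`, that
`Q(-r - m) = (-1)^n Q(m)`, and that `Q` vanishes at `-1, …, -(r - 1)`. As `Q(0) = |G| - 1`, the
polynomial is determined by these properties if `f ≤ r`, or if `f ≤ r + 1` and `n + r` is even.

The definitions `NoCommonZero` (`L^p` is globally generated), `FixDimLE` (the dimension of the fixed
locus) and `IsGorensteinGraded` are in `Pool/Agent/E8helper38/KV/` (`Inv`, `Fix`, `Gor`).
-/

set_option autoImplicit false

namespace Pool.Agent.Results.MP_954e53_ag.SmallFixedLociH38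

open Module Pool.Agent.E8helper38.KV

/-- `k` is an algebraically closed field of characteristic zero, `R = ⨁ 𝒜 m` is a graded `k`-algebra of
finite type with `𝒜 0 = k`, and `G` is a finite group of graded automorphisms of `R` (given by `ρ`). `S`
is the ring of invariants of `G`, that is, `φ : S → R` is injective with image `R^G`, and graded. `S` is
the section ring of an ample invertible sheaf `L`; we need only that `L ^ p` and `L ^ q` are globally
generated for some coprime `p` and `q` (`NoCommonZero`). `R` and `S` are Gorenstein of dimension `n + 1`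
with `a`-invariant `-r < 0`. Each `g ≠ 1` has a fixed locus of dimension at most `f` on `Proj R`
(`FixDimLE`), where `f ≤ r`, or `f ≤ r + 1` and `n + r` is even. Then
`|G| dim S₁ = dim R₁ + (|G| - 1) (r + 1 + (-1)^(n + r))`, and `S₁ ≠ 0` if `G` is not trivial. -/
theorem result {k : Type*} [Field k] [IsAlgClosed k] [CharZero k]
    {R : Type*} [CommRing R] [Algebra k R] [Algebra.FiniteType k R]
    (𝒜 : ℕ → Submodule k R) [GradedAlgebra 𝒜] [∀ m, FiniteDimensional k (𝒜 m)]
    (h𝒜 : finrank k (𝒜 0) = 1)
    {S : Type*} [CommRing S] [Algebra k S] (ℬ : ℕ → Submodule k S) [GradedAlgebra ℬ]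
    {G : Type*} [Group G] [Fintype G] (ρ : G →* (R ≃ₐ[k] R))
    (hρ : ∀ g m, ∀ x ∈ 𝒜 m, ρ g x ∈ 𝒜 m)
    (φ : S →ₐ[k] R) (hφ : ∀ m, ∀ x ∈ ℬ m, φ x ∈ 𝒜 m) (hinj : Function.Injective φ)
    (hinv : ∀ y, (∃ x, φ x = y) ↔ ∀ g, ρ g y = y)
    (hL : ∃ p q : ℕ, p.Coprime q ∧ NoCommonZero ℬ p ∧ NoCommonZero ℬ q)
    {n r f : ℕ} (hr : 0 < r) (hR : IsGorensteinGraded 𝒜 n r) (hS : IsGorensteinGraded ℬ n r)
    (hfix : ∀ g, g ≠ 1 → FixDimLE 𝒜 (ρ g) f) (hf : f ≤ r ∨ f ≤ r + 1 ∧ Even (n + r)) :
    (Fintype.card G : ℤ) * finrank k (ℬ 1) =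
      finrank k (𝒜 1) + (Fintype.card G - 1) * (r + 1 + (-1) ^ (n + r)) ∧
    (Nontrivial G → ∃ x ∈ ℬ 1, x ≠ 0) := by
  obtain ⟨p, q, hpq, hp, hq⟩ := hL
  have h := main 𝒜 ℬ ρ φ hρ h𝒜 hφ hinj hinv hpq hp hq hr hR hS hfix hf
  refine ⟨h, fun hG => ?_⟩
  have hcard : (2 : ℤ) ≤ Fintype.card G := by
    exact_mod_cast Fintype.one_lt_card_iff_nontrivial.2 hG
  have h1 : (1 : ℤ) ≤ r + 1 + (-1) ^ (n + r) := by
    rcases neg_one_pow_eq_or ℤ (n + r) with h2 | h2 <;> rw [h2] <;> omega
  have h2 : (0 : ℤ) < (Fintype.card G : ℤ) * finrank k (ℬ 1) := by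
    rw [h]
    have : (0 : ℤ) ≤ finrank k (𝒜 1) := Int.natCast_nonneg _
    have : (1 : ℤ) ≤ (Fintype.card G - 1) * (r + 1 + (-1) ^ (n + r)) := by nlinarith
    linarith
  have h3 : finrank k (ℬ 1) ≠ 0 := by
    intro h0
    rw [h0] at h2
    simp at h2
  have h4 : ℬ 1 ≠ ⊥ := by
    intro h0
    rw [h0, finrank_bot] at h3
    exact h3 rfl
  obtain ⟨x, hx, hx0⟩ := (Submodule.ne_bot_iff _).1 h4
  exact ⟨x, hx, hx0⟩

end Pool.Agent.Results.MP_954e53_ag.SmallFixedLociH38
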